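import Pool.Agent.Helper25.PCap.GoalsA
import Pool.Agent.Helper25.PCap.GoalsF

/-! # Packet A2: the ellipse lemma -/

set_option autoImplicit false

open MeasureTheory Set Filter Topology
open scoped ContDiff Real

noncomputable section

namespace Pool.Agent.Helper90.PCap

open Pool.Agent.Helper25.PCap

theorem tail_bound {f g : ℕ → ℝ} {S G : ℝ} (hf : HasSum f S) (hg : HasSum g G) (h0 : f 0 = 0)
    (h1 : f 1 = 0) (hpos : ∀ n, 0 ≤ g n) (h : ∀ n, 3 ≤ n → |f n| ≤ g n) : |S - f 2| ≤ G := by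
  have e1 : HasSum (fun n => if n = 2 then f 2 else 0) (f 2) := hasSum_ite_eq 2 (f 2)
  have e2 := hf.sub e1
  rw [← e2.tsum_eq, ← Real.norm_eq_abs]
  refine tsum_of_norm_bounded hg fun n => ?_
  by_cases hn : n = 2
  · subst hn
    simp only [if_true, sub_self, norm_zero]
    exact hpos 2
  · rw [if_neg hn, sub_zero]
    rcases Nat.lt_or_ge n 3 with h3 | h3
    · interval_cases n
      · rw [h0, norm_zero]; exact hpos 0
      · rw [h1, norm_zero]; exact hpos 1
      · exact absurd rfl hn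
    · exact h n h3

theorem md_norm (c : ℕ → ℂ) (n : ℕ) (θ : ℝ) : ‖md c n θ‖ = ‖c n‖ := by
  unfold md
  rw [norm_mul, Complex.norm_exp_ofReal_mul_I, mul_one]

theorem md_re2 {c : ℕ → ℂ} (hc : (c 2).im = 0) (θ : ℝ) :
    (md c 2 θ).re = (c 2).re * Real.cos (2 * θ) := by
  unfold md
  rw [Complex.mul_re, Complex.exp_ofReal_mul_I_re, Complex.exp_ofReal_mul_I_im, hc]
  norm_num

theorem md_im2 {c : ℕ → ℂ} (hc : (c 2).im = 0) (θ : ℝ) :
    (md c 2 θ).im = (c 2).re * Real.sin (2 * θ) := by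
  unfold md
  rw [Complex.mul_im, Complex.exp_ofReal_mul_I_re, Complex.exp_ofReal_mul_I_im, hc]
  norm_num

theorem aa_mono (h0 : GExpo) {κ : ℝ} (hκ : 0 < κ) (hκ1 : κ < 1) : StrictMono (aa κ) :=
  strictMono_nat_of_lt_succ (h0 κ hκ hκ1).2.2.2.2.1

/-- Leading terms with remainder. -/
theorem lead_terms (h0 : GExpo) {κ C0 : ℝ} (hκ : 0 < κ) (hκ1 : κ < 1) (hC : 0 < C0)
    {u om : ℝ × ℝ → ℝ} {c : ℕ → ℂ} {τ₁ : ℝ} (hF : FExp κ C0 u om c τ₁) :
    ∃ K : ℝ, 0 ≤ K ∧ ∀ t ≤ τ₁, ∀ θ : ℝ,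
      |u (t, θ) - C0 * Real.exp ((1 - κ) * t) - (md c 2 θ).re * Real.exp (aa κ 2 * t)| ≤
        K * Real.exp (aa κ 3 * t) ∧
      |om (t, θ) - BB κ C0 * (aa κ 2 / 2) * (md c 2 θ).im * Real.exp (bb κ 2 * t)| ≤
        BB κ C0 * (K * Real.exp (bb κ 3 * t)) := by
  obtain ⟨hsum, hc0, hc1, hexp⟩ := hF
  obtain ⟨e0, e1, e2, e3, e4, e5, e6, e7⟩ := h0 κ hκ hκ1
  have hmono := aa_mono h0 hκ hκ1
  have hB : 0 < BB κ C0 := by
    unfold BB
    have : 0 < 1 - κ := by linarith
    positivity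
  set g : ℕ → ℝ := fun n => ((n : ℝ) + 1) ^ 3 * ‖c n‖ * Real.exp (aa κ n * τ₁) with hg
  have hgpos : ∀ n, 0 ≤ g n := fun n => by positivity
  set Kt := ∑' n, g n with hKt
  have hgs : HasSum g Kt := hsum.hasSum
  have hKt0 : 0 ≤ Kt := tsum_nonneg hgpos
  refine ⟨Kt * Real.exp (-(aa κ 3 * τ₁)), by positivity, fun t ht θ => ?_⟩
  obtain ⟨hu, -, -, hom⟩ := hexp t θ ht
  have hbase : ∀ n : ℕ, 3 ≤ n → ((n : ℝ) + 1) ^ 3 * ‖c n‖ * Real.exp (aa κ n * t) ≤
      g n * Real.exp (aa κ 3 * (t - τ₁)) := by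
    intro n hn
    rw [hg]
    simp only
    rw [mul_assoc (((n : ℝ) + 1) ^ 3 * ‖c n‖), ← Real.exp_add]
    apply mul_le_mul_of_nonneg_left _ (by positivity)
    apply Real.exp_le_exp.2
    have : aa κ 3 ≤ aa κ n := hmono.monotone hn
    nlinarith
  constructor
  · have h := tail_bound hu (hgs.mul_right (Real.exp (aa κ 3 * (t - τ₁)))) (by simp [md, hc0])
      (by simp [md, hc1]) (fun n => by have := hgpos n; positivity) (fun n hn => by
        refine le_trans ?_ (hbase n hn)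
        rw [abs_mul, abs_of_pos (Real.exp_pos _)]
        apply mul_le_mul_of_nonneg_right _ (Real.exp_pos _).le
        have h1 : |(md c n θ).re| ≤ ‖c n‖ := by
          rw [← md_norm c n θ]
          exact Complex.abs_re_le_norm _
        have h2 : (1 : ℝ) ≤ ((n : ℝ) + 1) ^ 3 := by
          apply one_le_pow₀
          have : (0 : ℝ) ≤ n := Nat.cast_nonneg n
          linarith
        have h3 : 0 ≤ ‖c n‖ := norm_nonneg _
        nlinarith)
    refine h.trans (le_of_eq ?_)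
    rw [mul_assoc, ← Real.exp_add]
    congr 2
    ring
  · have h := tail_bound hom ((hgs.mul_right (Real.exp (aa κ 3 * (t - τ₁)))).mul_left
        (BB κ C0 * Real.exp (-((1 - κ) * t)))) (by simp [md, hc0])
      (by simp [md, hc1]) (fun n => by have := hgpos n; positivity) (fun n hn => by
        have h1 : |(md c n θ).im| ≤ ‖c n‖ := by
          rw [← md_norm c n θ]
          exact Complex.abs_im_le_norm _
        have hn0 : (1 : ℝ) ≤ n := by exact_mod_cast (by omega : 1 ≤ n)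
        have ha0 : 0 ≤ aa κ n := le_trans (by positivity) (e5 n)
        have ha1 : aa κ n / n ≤ ((n : ℝ) + 1) ^ 3 := by
          rw [div_le_iff₀ (by linarith)]
          have := e6 n
          have h5 : (1 : ℝ) ≤ ((n : ℝ) + 1) ^ 2 * n := by nlinarith
          nlinarith
        have hsplit : Real.exp (bb κ n * t) = Real.exp (-((1 - κ) * t)) * Real.exp (aa κ n * t) := by
          rw [← Real.exp_add]
          congr 1
          unfold bb
          ring
        rw [abs_mul, abs_mul, abs_mul, abs_of_pos hB, abs_of_pos (Real.exp_pos _), hsplit,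
          abs_of_nonneg (by positivity : 0 ≤ aa κ n / n)]
        have h6 := hbase n hn
        have h7 : aa κ n / n * |(md c n θ).im| * Real.exp (aa κ n * t) ≤
            ((n : ℝ) + 1) ^ 3 * ‖c n‖ * Real.exp (aa κ n * t) := by
          apply mul_le_mul_of_nonneg_right _ (Real.exp_pos _).le
          exact mul_le_mul ha1 h1 (abs_nonneg _) (by positivity)
        calc BB κ C0 * (aa κ n / n) * |(md c n θ).im| *
              (Real.exp (-((1 - κ) * t)) * Real.exp (aa κ n * t)) =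
            BB κ C0 * Real.exp (-((1 - κ) * t)) *
              (aa κ n / n * |(md c n θ).im| * Real.exp (aa κ n * t)) := by ring
          _ ≤ _ := mul_le_mul_of_nonneg_left (h7.trans h6) (by positivity))
    simp only [Nat.cast_ofNat] at h
    refine h.trans (le_of_eq ?_)
    have hsplit : Real.exp (-(aa κ 3 * τ₁)) * Real.exp (bb κ 3 * t) =
        Real.exp (-((1 - κ) * t)) * Real.exp (aa κ 3 * (t - τ₁)) := by
      rw [← Real.exp_add, ← Real.exp_add]
      congr 1
      unfold bb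
      ring
    rw [mul_assoc Kt, hsplit]
    ring

theorem pkA2 (h0 : GExpo) (_h1 : GA1) : GA2 := by
  intro κ hκ hκ1 S c τ₁ hF hreal hs β hβ0 hβ1
  have hC := S.C0pos
  obtain ⟨K, hK, hlead⟩ := lead_terms h0 hκ hκ1 hC hF
  have hmono := aa_mono h0 hκ hκ1
  have ha1 : aa κ 1 = 1 := (h0 κ hκ hκ1).2.1
  have ha2 : 1 < aa κ 2 := by rw [← ha1]; exact hmono (by norm_num)
  have ha3 : aa κ 2 < aa κ 3 := hmono (by norm_num)
  have hB : 0 < BB κ S.C0 := by
    unfold BB
    have : 0 < 1 - κ := by linarith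
    positivity
  set s := (c 2).re with hsdef
  set η := (1 - β ^ 2) / 7 with hη
  have hη0 : 0 < η := by
    rw [hη]
    have : β ^ 2 < 1 := by nlinarith
    linarith
  have hlim : Tendsto (fun t : ℝ => K * Real.exp ((aa κ 3 - aa κ 2) * t)) atBot (𝓝 (K * 0)) := by
    apply Tendsto.const_mul
    apply Real.tendsto_exp_atBot.comp
    exact Tendsto.const_mul_atBot (by linarith) tendsto_id
  rw [mul_zero] at hlim
  have hev := hlim.eventually (gt_mem_nhds (show (0 : ℝ) < η * s / 2 by positivity))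
  obtain ⟨t₀, ht₀⟩ := eventually_atBot.1 hev
  refine ⟨min t₀ τ₁, fun t ht x y hxy => ?_⟩
  have ht1 : t ≤ t₀ := ht.trans (min_le_left _ _)
  have ht2 : t ≤ τ₁ := ht.trans (min_le_right _ _)
  have hsmall := ht₀ t ht1
  have hEa : 0 < Real.exp (aa κ 2 * t) := Real.exp_pos _
  have hEb : 0 < Real.exp (bb κ 2 * t) := Real.exp_pos _
  have hr1 : K * Real.exp (aa κ 3 * t) ≤ η * s / 2 * Real.exp (aa κ 2 * t) := by
    have : Real.exp (aa κ 3 * t) = Real.exp ((aa κ 3 - aa κ 2) * t) * Real.exp (aa κ 2 * t) := by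
      rw [← Real.exp_add]
      congr 1
      ring
    rw [this, ← mul_assoc]
    exact mul_le_mul_of_nonneg_right hsmall.le hEa.le
  have hr2 : K * Real.exp (bb κ 3 * t) ≤ η * s / 2 * Real.exp (bb κ 2 * t) := by
    have : Real.exp (bb κ 3 * t) = Real.exp ((aa κ 3 - aa κ 2) * t) * Real.exp (bb κ 2 * t) := by
      rw [← Real.exp_add]
      congr 1
      unfold bb
      ring
    rw [this, ← mul_assoc]
    exact mul_le_mul_of_nonneg_right hsmall.le hEb.le
  -- bounds
  have hu : ∀ θ, |S.u (t, θ) - S.C0 * Real.exp ((1 - κ) * t) -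
      s * Real.cos (2 * θ) * Real.exp (aa κ 2 * t)| ≤ η * s * Real.exp (aa κ 2 * t) := by
    intro θ
    have h := (hlead t ht2 θ).1
    rw [md_re2 (hreal 2)] at h
    refine h.trans (hr1.trans ?_)
    have : 0 < η * s * Real.exp (aa κ 2 * t) := by positivity
    linarith
  have hom : ∀ θ, BB κ S.C0 * (aa κ 2 / 2) * s * (Real.sin (2 * θ) - η) * Real.exp (bb κ 2 * t) ≤
      S.om (t, θ) := by
    intro θ
    have h := (hlead t ht2 θ).2
    rw [md_im2 (hreal 2), abs_le] at h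
    have h2 : BB κ S.C0 * (K * Real.exp (bb κ 3 * t)) ≤
        BB κ S.C0 * (aa κ 2 / 2) * s * η * Real.exp (bb κ 2 * t) := by
      refine (mul_le_mul_of_nonneg_left hr2 hB.le).trans ?_
      have h3 : 0 < BB κ S.C0 * (η * s / 2) * Real.exp (bb κ 2 * t) := by positivity
      have h4 : BB κ S.C0 * (aa κ 2 / 2) * s * η * Real.exp (bb κ 2 * t) =
        aa κ 2 * (BB κ S.C0 * (η * s / 2) * Real.exp (bb κ 2 * t)) := by ring
      rw [h4]
      nlinarith
    have h5 := h.1
    have h6 : BB κ S.C0 * (aa κ 2 / 2) * s * (Real.sin (2 * θ) - η) * Real.exp (bb κ 2 * t) =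
      BB κ S.C0 * (aa κ 2 / 2) * (s * Real.sin (2 * θ)) * Real.exp (bb κ 2 * t) -
      BB κ S.C0 * (aa κ 2 / 2) * s * η * Real.exp (bb κ 2 * t) := by ring
    rw [h6]
    linarith
  have hx : |x| ≤ β := by
    apply abs_le_of_sq_le_sq _ hβ0.le
    nlinarith [sq_nonneg y]
  have hηβ : η < 1 - β := by
    rw [hη]
    nlinarith
  set r := S.C0 * Real.exp ((1 - κ) * t) + s * x * Real.exp (aa κ 2 * t) with hr
  rw [abs_le] at hx
  -- intermediate value
  have hcont : ContinuousOn (fun θ => S.u (t, θ)) (Icc 0 (π / 2)) :=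
    (S.cont.comp (by fun_prop)).continuousOn
  have hpi : (0 : ℝ) ≤ π / 2 := by positivity
  have hz0 : r < S.u (t, 0) := by
    have h := (abs_le.1 (hu 0)).1
    simp only [mul_zero, Real.cos_zero, mul_one] at h
    have h2 : 0 < (1 - η - x) * (s * Real.exp (aa κ 2 * t)) :=
      mul_pos (by linarith [hx.2]) (by positivity)
    rw [hr]
    nlinarith
  have hz1 : S.u (t, π / 2) < r := by
    have h := (abs_le.1 (hu (π / 2))).2
    rw [show 2 * (π / 2) = π by ring, Real.cos_pi] at h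
    have h2 : 0 < (1 - η + x) * (s * Real.exp (aa κ 2 * t)) :=
      mul_pos (by linarith [hx.1]) (by positivity)
    rw [hr]
    nlinarith
  obtain ⟨ϑ, hϑ, hϑu⟩ := intermediate_value_Icc' hpi hcont ⟨hz1.le, hz0.le⟩
  simp only at hϑu
  have hϑ0 : 0 < ϑ := by
    rcases hϑ.1.lt_or_eq with h | h
    · exact h
    · rw [← h] at hϑu
      exact absurd hϑu hz0.ne'
  have hϑ1 : ϑ < π / 2 := by
    rcases hϑ.2.lt_or_eq with h | h
    · exact h
    · rw [h] at hϑu
      exact absurd hϑu hz1.ne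
  refine ⟨ϑ, hϑ0, hϑ1, hϑu, ?_⟩
  have hsin : 0 < Real.sin (2 * ϑ) := Real.sin_pos_of_pos_of_lt_pi (by linarith) (by linarith)
  have hcos : |Real.cos (2 * ϑ) - x| ≤ η := by
    have h := hu ϑ
    rw [hϑu, hr] at h
    have h2 : S.C0 * Real.exp ((1 - κ) * t) + s * x * Real.exp (aa κ 2 * t) -
        S.C0 * Real.exp ((1 - κ) * t) - s * Real.cos (2 * ϑ) * Real.exp (aa κ 2 * t) =
        -((Real.cos (2 * ϑ) - x) * (s * Real.exp (aa κ 2 * t))) := by ring
    rw [h2, abs_neg, abs_mul, abs_of_pos (by positivity : 0 < s * Real.exp (aa κ 2 * t)),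
      mul_assoc η] at h
    exact le_of_mul_le_mul_right h (by positivity)
  have hkey : |y| + η < Real.sin (2 * ϑ) := by
    apply lt_of_pow_lt_pow_left₀ 2 hsin.le
    have h3 := Real.sin_sq_add_cos_sq (2 * ϑ)
    have hcc : Real.cos (2 * ϑ) ^ 2 ≤ (|x| + η) ^ 2 := by
      rw [← sq_abs (Real.cos (2 * ϑ))]
      apply pow_le_pow_left₀ (abs_nonneg _)
      have : |Real.cos (2 * ϑ)| ≤ |Real.cos (2 * ϑ) - x| + |x| := by
        have := abs_add_le (Real.cos (2 * ϑ) - x) x
        rwa [sub_add_cancel] at this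
      linarith
    have hy1 : |y| ≤ 1 := by
      apply abs_le_of_sq_le_sq _ (by norm_num)
      nlinarith [sq_nonneg x]
    have hx1 : |x| ≤ 1 := by
      rw [abs_le]
      constructor <;> linarith [hx.1, hx.2]
    have hyy := sq_abs y
    have hxx := sq_abs x
    have hη7 : 7 * η = 1 - β ^ 2 := by rw [hη]; ring
    have hη1 : η < 1 := by nlinarith
    have hyη : |y| * η ≤ η := by nlinarith [abs_nonneg y]
    have hxη : |x| * η ≤ η := by nlinarith [abs_nonneg x]
    have hηη : η ^ 2 ≤ η := by nlinarith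
    nlinarith
  refine lt_of_lt_of_le ?_ (hom ϑ)
  have h8 : |BB κ S.C0 * (aa κ 2 / 2) * s * y * Real.exp (bb κ 2 * t)| =
      BB κ S.C0 * (aa κ 2 / 2) * s * |y| * Real.exp (bb κ 2 * t) := by
    rw [abs_mul, abs_mul, abs_of_pos hEb,
      abs_of_pos (by positivity : 0 < BB κ S.C0 * (aa κ 2 / 2) * s)]
  rw [h8]
  apply mul_lt_mul_of_pos_right _ hEb
  apply mul_lt_mul_of_pos_left _ (by positivity)
  linarith

end Pool.Agent.Helper90.PCap
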