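import Pool.Agent.Helper25.PCap.GoalsTools

/-! # Packet MP: maximum principles on the plane -/

set_option autoImplicit false

open MeasureTheory Set Filter Topology
open scoped ContDiff Real

noncomputable section

namespace Pool.Agent.Helper90.PCap

open Pool.Agent.Helper25.PCap

theorem c2_diff {f : ℝ × ℝ → ℝ} {z : ℝ × ℝ} (h : ContDiffAt ℝ 2 f z) : DifferentiableAt ℝ f z :=
  h.differentiableAt (by norm_num)

theorem c2_D1 {f : ℝ × ℝ → ℝ} {z : ℝ × ℝ} (h : ContDiffAt ℝ 2 f z) : ContDiffAt ℝ 1 (D1 f) z :=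
  (h.fderiv_right (m := 1) (by norm_num)).clm_apply contDiffAt_const

theorem c2_D2 {f : ℝ × ℝ → ℝ} {z : ℝ × ℝ} (h : ContDiffAt ℝ 2 f z) : ContDiffAt ℝ 1 (D2 f) z :=
  (h.fderiv_right (m := 1) (by norm_num)).clm_apply contDiffAt_const

theorem D1_eq {f : ℝ × ℝ → ℝ} {z : ℝ × ℝ} (h : DifferentiableAt ℝ f z) :
    D1 f z = deriv (fun t => f (t, z.2)) z.1 := by
  have h1 : HasFDerivAt f (fderiv ℝ f z) (z.1, z.2) := h.hasFDerivAt
  have h2 : HasDerivAt (fun t : ℝ => ((t, z.2) : ℝ × ℝ)) (1, 0) z.1 :=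
    (hasDerivAt_id z.1).prodMk (hasDerivAt_const z.1 z.2)
  exact (HasFDerivAt.comp_hasDerivAt z.1 h1 h2).deriv.symm

theorem D2_eq {f : ℝ × ℝ → ℝ} {z : ℝ × ℝ} (h : DifferentiableAt ℝ f z) :
    D2 f z = deriv (fun t => f (z.1, t)) z.2 := by
  have h1 : HasFDerivAt f (fderiv ℝ f z) (z.1, z.2) := h.hasFDerivAt
  have h2 : HasDerivAt (fun t : ℝ => ((z.1, t) : ℝ × ℝ)) (0, 1) z.2 :=
    (hasDerivAt_const z.2 z.1).prodMk (hasDerivAt_id z.2)
  exact (HasFDerivAt.comp_hasDerivAt z.2 h1 h2).deriv.symm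

theorem D11_eq {f : ℝ × ℝ → ℝ} {z : ℝ × ℝ} (h : ContDiffAt ℝ 2 f z) :
    D1 (D1 f) z = deriv (deriv (fun t => f (t, z.2))) z.1 := by
  rw [D1_eq ((c2_D1 h).differentiableAt (by norm_num))]
  refine Filter.EventuallyEq.deriv_eq ?_
  have hc : ContinuousAt (fun t : ℝ => ((t, z.2) : ℝ × ℝ)) z.1 := by fun_prop
  have h3 : Tendsto (fun t : ℝ => ((t, z.2) : ℝ × ℝ)) (𝓝 z.1) (𝓝 z) := hc
  filter_upwards [h3.eventually (h.eventually (by norm_num))] with t ht
  exact D1_eq (z := (t, z.2)) (c2_diff ht)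

theorem D22_eq {f : ℝ × ℝ → ℝ} {z : ℝ × ℝ} (h : ContDiffAt ℝ 2 f z) :
    D2 (D2 f) z = deriv (deriv (fun t => f (z.1, t))) z.2 := by
  rw [D2_eq ((c2_D2 h).differentiableAt (by norm_num))]
  refine Filter.EventuallyEq.deriv_eq ?_
  have hc : ContinuousAt (fun t : ℝ => ((z.1, t) : ℝ × ℝ)) z.2 := by fun_prop
  have h3 : Tendsto (fun t : ℝ => ((z.1, t) : ℝ × ℝ)) (𝓝 z.2) (𝓝 z) := hc
  filter_upwards [h3.eventually (h.eventually (by norm_num))] with t ht
  exact D2_eq (z := (z.1, t)) (c2_diff ht)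

/-- second derivative at a local maximum -/
theorem dd_le {f : ℝ → ℝ} {x : ℝ} (hm : IsLocalMax f x) (hc : ContinuousAt f x) :
    deriv (deriv f) x ≤ 0 := by
  by_contra hn
  push Not at hn
  have h1 := isLocalMin_of_deriv_deriv_pos hn hm.deriv_eq_zero hc
  have h2 : f =ᶠ[𝓝 x] fun _ => f x := by
    filter_upwards [hm, h1] with y hy1 hy2 using le_antisymm hy1 hy2
  have h3 : deriv f =ᶠ[𝓝 x] fun _ => 0 := by
    filter_upwards [h2.deriv] with y hy
    rw [hy, deriv_const]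
  have h4 : deriv (deriv f) x = 0 := by
    rw [h3.deriv_eq, deriv_const]
  rw [h4] at hn
  exact lt_irrefl _ hn

theorem LL_le {κ : ℝ} (hκ : 0 < κ) {f : ℝ × ℝ → ℝ} {z : ℝ × ℝ} (hf : ContDiffAt ℝ 2 f z)
    (hm : IsLocalMax f z) : LL κ f z ≤ 0 := by
  have h0 : D1 f z = 0 := by
    simp only [D1, hm.fderiv_eq_zero]
    rfl
  have hc1 : Tendsto (fun t : ℝ => ((t, z.2) : ℝ × ℝ)) (𝓝 z.1) (𝓝 z) := by
    have hc : ContinuousAt (fun t : ℝ => ((t, z.2) : ℝ × ℝ)) z.1 := by fun_prop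
    exact hc
  have hc2 : Tendsto (fun t : ℝ => ((z.1, t) : ℝ × ℝ)) (𝓝 z.2) (𝓝 z) := by
    have hc : ContinuousAt (fun t : ℝ => ((z.1, t) : ℝ × ℝ)) z.2 := by fun_prop
    exact hc
  have h1 : D1 (D1 f) z ≤ 0 := by
    rw [D11_eq hf]
    exact dd_le (hc1.eventually hm) (hf.continuousAt.tendsto.comp hc1)
  have h2 : D2 (D2 f) z ≤ 0 := by
    rw [D22_eq hf]
    exact dd_le (hc2.eventually hm) (hf.continuousAt.tendsto.comp hc2)
  simp only [LL]
  rw [h0]
  have := mul_nonpos_of_nonneg_of_nonpos hκ.le h2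
  linarith

theorem D1_sub {v h : ℝ × ℝ → ℝ} {z : ℝ × ℝ} (δ : ℝ) (hv : DifferentiableAt ℝ v z)
    (hh : DifferentiableAt ℝ h z) : D1 (fun y => v y - δ * h y) z = D1 v z - δ * D1 h z := by
  simp only [D1]
  rw [fderiv_fun_sub hv (hh.const_mul δ), fderiv_const_mul hh]
  rfl

theorem D2_sub {v h : ℝ × ℝ → ℝ} {z : ℝ × ℝ} (δ : ℝ) (hv : DifferentiableAt ℝ v z)
    (hh : DifferentiableAt ℝ h z) : D2 (fun y => v y - δ * h y) z = D2 v z - δ * D2 h z := by
  simp only [D2]
  rw [fderiv_fun_sub hv (hh.const_mul δ), fderiv_const_mul hh]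
  rfl

theorem LL_sub {κ : ℝ} {v h : ℝ × ℝ → ℝ} {z : ℝ × ℝ} (δ : ℝ) (hv : ContDiffAt ℝ 2 v z)
    (hh : ContDiffAt ℝ 2 h z) : LL κ (fun y => v y - δ * h y) z = LL κ v z - δ * LL κ h z := by
  have e1 : D1 (fun y => v y - δ * h y) =ᶠ[𝓝 z] fun y => D1 v y - δ * D1 h y := by
    filter_upwards [hv.eventually (by norm_num), hh.eventually (by norm_num)] with y h1 h2
    exact D1_sub δ (c2_diff h1) (c2_diff h2)
  have e2 : D2 (fun y => v y - δ * h y) =ᶠ[𝓝 z] fun y => D2 v y - δ * D2 h y := by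
    filter_upwards [hv.eventually (by norm_num), hh.eventually (by norm_num)] with y h1 h2
    exact D2_sub δ (c2_diff h1) (c2_diff h2)
  have e3 : D1 (D1 (fun y => v y - δ * h y)) z = D1 (D1 v) z - δ * D1 (D1 h) z := by
    rw [← D1_sub δ ((c2_D1 hv).differentiableAt (by norm_num))
      ((c2_D1 hh).differentiableAt (by norm_num))]
    exact congrArg (fun L : ℝ × ℝ →L[ℝ] ℝ => L (1, 0)) e1.fderiv_eq
  have e4 : D2 (D2 (fun y => v y - δ * h y)) z = D2 (D2 v) z - δ * D2 (D2 h) z := by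
    rw [← D2_sub δ ((c2_D2 hv).differentiableAt (by norm_num))
      ((c2_D2 hh).differentiableAt (by norm_num))]
    exact congrArg (fun L : ℝ × ℝ →L[ℝ] ℝ => L (0, 1)) e2.fderiv_eq
  simp only [LL]
  rw [e3, e4, e1.eq_of_nhds]
  ring

/-- a function with a nonempty compact superlevel set attains its maximum -/
theorem exists_max {ψ : ℝ × ℝ → ℝ} (hc : Continuous ψ) (x₁ : ℝ × ℝ) {K : Set (ℝ × ℝ)}
    (hK : IsCompact K) (hs : ∀ z, ψ x₁ ≤ ψ z → z ∈ K) :
    ∃ z, ψ x₁ ≤ ψ z ∧ IsLocalMax ψ z := by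
  have hcl : IsClosed {z | ψ x₁ ≤ ψ z} := isClosed_le continuous_const hc
  have hcomp : IsCompact {z | ψ x₁ ≤ ψ z} := hK.of_isClosed_subset hcl hs
  obtain ⟨z, hz, hmax⟩ := hcomp.exists_isMaxOn ⟨x₁, show ψ x₁ ≤ ψ x₁ from le_rfl⟩
    hc.continuousOn
  refine ⟨z, hz, Eventually.of_forall fun y => ?_⟩
  by_cases hy : ψ x₁ ≤ ψ y
  · exact hmax hy
  · push Not at hy
    exact hy.le.trans hz

theorem abs_le_cosh (x : ℝ) : |x| ≤ 2 * Real.cosh x := by
  rw [Real.cosh_eq]
  have h1 := Real.add_one_le_exp x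
  have h2 := Real.add_one_le_exp (-x)
  have h3 := Real.exp_pos x
  have h4 := Real.exp_pos (-x)
  rw [abs_le]
  constructor <;> linarith

theorem abs_sinh_le (x : ℝ) : |Real.sinh x| ≤ Real.cosh x := by
  rw [Real.cosh_eq, Real.sinh_eq]
  have h3 := Real.exp_pos x
  have h4 := Real.exp_pos (-x)
  rw [abs_le]
  constructor <;> linarith

/-- first comparison function -/
def h1 (γ β : ℝ) (z : ℝ × ℝ) : ℝ := Real.exp (γ * z.1) * Real.cosh (β * z.2)

theorem h1_smooth (γ β : ℝ) : ContDiff ℝ 2 (h1 γ β) := by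
  unfold h1
  fun_prop

theorem h1_LL (κ γ β : ℝ) (z : ℝ × ℝ) :
    LL κ (h1 γ β) z = (γ ^ 2 - (1 - κ) * γ + κ * β ^ 2) * h1 γ β z := by
  have hs := (h1_smooth γ β).contDiffAt (x := z)
  have e0 : ∀ c : ℝ, deriv (fun t => Real.exp (γ * t) * c) = fun t => γ * (Real.exp (γ * t) * c) := by
    intro c
    funext t
    have : HasDerivAt (fun t => Real.exp (γ * t) * c) (Real.exp (γ * t) * (γ * 1) * c) t :=
      (((hasDerivAt_id t).const_mul γ).exp).mul_const c
    rw [this.deriv]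
    ring
  have e1 : D1 (h1 γ β) z = γ * h1 γ β z := by
    rw [D1_eq (c2_diff hs)]
    exact congrFun (e0 (Real.cosh (β * z.2))) z.1
  have e2 : D1 (D1 (h1 γ β)) z = γ ^ 2 * h1 γ β z := by
    rw [D11_eq hs]
    have : deriv (fun t => h1 γ β (t, z.2)) =
        fun t => Real.exp (γ * t) * (γ * Real.cosh (β * z.2)) := by
      rw [show (fun t => h1 γ β (t, z.2)) = fun t => Real.exp (γ * t) * Real.cosh (β * z.2) from rfl,
        e0]
      funext t
      ring
    rw [this, e0]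
    simp only [h1]
    ring
  have e3 : D2 (D2 (h1 γ β)) z = β ^ 2 * h1 γ β z := by
    rw [D22_eq hs]
    have : deriv (fun t => h1 γ β (z.1, t)) =
        fun t => Real.exp (γ * z.1) * (β * Real.sinh (β * t)) := by
      funext t
      have : HasDerivAt (fun t => Real.exp (γ * z.1) * Real.cosh (β * t))
          (Real.exp (γ * z.1) * (Real.sinh (β * t) * (β * 1))) t :=
        (((hasDerivAt_id t).const_mul β).cosh).const_mul _
      rw [show (fun t => h1 γ β (z.1, t)) = fun t => Real.exp (γ * z.1) * Real.cosh (β * t) from rfl,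
        this.deriv]
      ring
    rw [this]
    have : HasDerivAt (fun t => Real.exp (γ * z.1) * (β * Real.sinh (β * t)))
          (Real.exp (γ * z.1) * (β * (Real.cosh (β * z.2) * (β * 1)))) z.2 :=
        ((((hasDerivAt_id z.2).const_mul β).sinh).const_mul _).const_mul _
    rw [this.deriv]
    simp only [h1]
    ring
  simp only [LL]
  rw [e1, e2, e3]
  ring

theorem pkMP1 : GMP1 := by
  intro κ hκ hκ1 v A hv hA hdec hpos
  by_contra hcon
  push Not at hcon
  obtain ⟨x₁, hx₁⟩ := hcon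
  set ε := 1 - κ with hε
  have hε0 : 0 < ε := by rw [hε]; linarith
  set γ := ε / 2 with hγ
  set β := ε / 4 with hβ
  have hγ0 : 0 < γ := by positivity
  have hβ0 : 0 < β := by positivity
  have hneg : γ ^ 2 - ε * γ + κ * β ^ 2 < 0 := by
    rw [hγ, hβ]
    have : 0 < ε ^ 2 := by positivity
    nlinarith
  set h := h1 γ β with hh
  have hhpos : ∀ z, 0 < h z := fun z => mul_pos (Real.exp_pos _) (Real.cosh_pos _)
  have hhs : ContDiff ℝ 2 h := h1_smooth γ β
  -- the parameter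
  set δ := v x₁ / (2 * h x₁) with hδ
  have hδ0 : 0 < δ := div_pos hx₁ (mul_pos two_pos (hhpos _))
  set s := v x₁ / 2 with hs
  have hs0 : 0 < s := by positivity
  have hψ1 : v x₁ - δ * h x₁ = s := by
    have := (hhpos x₁).ne'
    rw [hδ, hs]
    field_simp
    ring
  obtain ⟨M, hM⟩ := hdec (s / 2) (by positivity)
  set Q := (A - s) / δ with hQ
  have hcont : Continuous fun z => v z - δ * h z := hv.sub (continuous_const.mul hhs.continuous)
  have hKc : IsCompact (Icc (-M) (Q / γ) ×ˢ Icc (-(2 * Real.exp (γ * M) * Q / β))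
      (2 * Real.exp (γ * M) * Q / β)) := isCompact_Icc.prod isCompact_Icc
  obtain ⟨z, hz, hmax⟩ := exists_max hcont x₁ hKc (by
    intro z hz
    rw [hψ1] at hz
    have hp := hhpos z
    have hz1 : -M < z.1 := by
      by_contra hn
      push Not at hn
      have := hM z hn
      have : 0 < δ * h z := mul_pos hδ0 hp
      linarith
    have hhQ : h z ≤ Q := by
      rw [hQ, le_div_iff₀ hδ0]
      have := hA z
      linarith
    have hcosh : 1 ≤ Real.cosh (β * z.2) := Real.one_le_cosh _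
    have he : Real.exp (γ * z.1) ≤ Q := by
      refine le_trans ?_ hhQ
      exact le_mul_of_one_le_right (Real.exp_pos _).le hcosh
    have hz1' : z.1 ≤ Q / γ := by
      rw [le_div_iff₀ hγ0]
      have := Real.add_one_le_exp (γ * z.1)
      linarith
    have he2 : Real.exp (-(γ * M)) ≤ Real.exp (γ * z.1) := by
      apply Real.exp_le_exp.2
      nlinarith
    have hc2 : Real.cosh (β * z.2) ≤ Real.exp (γ * M) * Q := by
      have h3 : Real.exp (-(γ * M)) * Real.cosh (β * z.2) ≤ Q :=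
        (mul_le_mul_of_nonneg_right he2 (by linarith)).trans hhQ
      rw [Real.exp_neg, inv_mul_le_iff₀ (Real.exp_pos _)] at h3
      exact h3
    have habs : |z.2| ≤ 2 * Real.exp (γ * M) * Q / β := by
      rw [le_div_iff₀ hβ0]
      have h4 := abs_le_cosh (β * z.2)
      rw [abs_mul, abs_of_pos hβ0] at h4
      nlinarith
    rw [abs_le] at habs
    exact ⟨⟨hz1.le, hz1'⟩, habs⟩)
  rw [hψ1] at hz
  have hvz : 0 < v z := by
    have : 0 < δ * h z := mul_pos hδ0 (hhpos z)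
    linarith
  obtain ⟨hc2, hLL⟩ := hpos z hvz
  have hle := LL_le hκ (hc2.sub (contDiffAt_const.mul hhs.contDiffAt)) hmax
  have e := LL_sub (κ := κ) δ hc2 (hhs.contDiffAt (x := z))
  rw [e, hh, h1_LL, ← hh] at hle
  have h5 : δ * ((γ ^ 2 - (1 - κ) * γ + κ * β ^ 2) * h z) < 0 :=
    mul_neg_of_pos_of_neg hδ0 (mul_neg_of_neg_of_pos hneg (hhpos z))
  linarith

/-- second comparison function -/
def h2 (β : ℝ) (z : ℝ × ℝ) : ℝ := Real.cosh (β * z.1) + Real.cosh (β * z.2)

theorem h2_smooth (β : ℝ) : ContDiff ℝ 2 (h2 β) := by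
  unfold h2
  fun_prop

theorem h2_LL (κ β : ℝ) (z : ℝ × ℝ) :
    LL κ (h2 β) z = β ^ 2 * Real.cosh (β * z.1) - (1 - κ) * (β * Real.sinh (β * z.1)) +
      κ * (β ^ 2 * Real.cosh (β * z.2)) := by
  have hs := (h2_smooth β).contDiffAt (x := z)
  have e0 : ∀ c : ℝ, deriv (fun t => Real.cosh (β * t) + c) = fun t => β * Real.sinh (β * t) := by
    intro c
    funext t
    have : HasDerivAt (fun t => Real.cosh (β * t) + c) (Real.sinh (β * t) * (β * 1)) t :=
      (((hasDerivAt_id t).const_mul β).cosh).add_const c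
    rw [this.deriv]
    ring
  have e0' : ∀ c : ℝ, deriv (fun t => c + Real.cosh (β * t)) = fun t => β * Real.sinh (β * t) := by
    intro c
    rw [← e0 c]
    congr 1
    funext t
    ring
  have e4 : ∀ t, deriv (fun t => β * Real.sinh (β * t)) t = β ^ 2 * Real.cosh (β * t) := by
    intro t
    have : HasDerivAt (fun t => β * Real.sinh (β * t)) (β * (Real.cosh (β * t) * (β * 1))) t :=
      (((hasDerivAt_id t).const_mul β).sinh).const_mul _
    rw [this.deriv]
    ring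
  have e1 : D1 (h2 β) z = β * Real.sinh (β * z.1) := by
    rw [D1_eq (c2_diff hs)]
    exact congrFun (e0 (Real.cosh (β * z.2))) z.1
  have e2 : D1 (D1 (h2 β)) z = β ^ 2 * Real.cosh (β * z.1) := by
    rw [D11_eq hs,
      show (fun t => h2 β (t, z.2)) = fun t => Real.cosh (β * t) + Real.cosh (β * z.2) from rfl,
      e0, e4]
  have e3 : D2 (D2 (h2 β)) z = β ^ 2 * Real.cosh (β * z.2) := by
    rw [D22_eq hs,
      show (fun t => h2 β (z.1, t)) = fun t => Real.cosh (β * z.1) + Real.cosh (β * t) from rfl,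
      e0', e4]
  simp only [LL]
  rw [e1, e2, e3]

theorem pkMPq : GMPq := by
  intro κ q hκ hκ1 hq v A hv hA hpos
  by_contra hcon
  push Not at hcon
  obtain ⟨x₁, hx₁⟩ := hcon
  set β := min 1 (q / 6) with hβ
  have hβ0 : 0 < β := lt_min one_pos (by positivity)
  have hβ1 : β ≤ 1 := min_le_left _ _
  have hβq : β ≤ q / 6 := min_le_right _ _
  set h := h2 β with hh
  have hhpos : ∀ z, 0 < h z := fun z => add_pos (Real.cosh_pos _) (Real.cosh_pos _)
  have hhs : ContDiff ℝ 2 h := h2_smooth β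
  set δ := v x₁ / (2 * h x₁) with hδ
  have hδ0 : 0 < δ := div_pos hx₁ (mul_pos two_pos (hhpos _))
  set s := v x₁ / 2 with hs
  have hs0 : 0 < s := by positivity
  have hψ1 : v x₁ - δ * h x₁ = s := by
    have := (hhpos x₁).ne'
    rw [hδ, hs]
    field_simp
    ring
  set Q := (A - s) / δ with hQ
  have hcont : Continuous fun z => v z - δ * h z := hv.sub (continuous_const.mul hhs.continuous)
  have hKc : IsCompact (Icc (-(2 * Q / β)) (2 * Q / β) ×ˢ Icc (-(2 * Q / β)) (2 * Q / β)) :=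
    isCompact_Icc.prod isCompact_Icc
  obtain ⟨z, hz, hmax⟩ := exists_max hcont x₁ hKc (by
    intro z hz
    rw [hψ1] at hz
    have hhQ : h z ≤ Q := by
      rw [hQ, le_div_iff₀ hδ0]
      have := hA z
      linarith
    have hc1 := Real.cosh_pos (β * z.1)
    have hc2 := Real.cosh_pos (β * z.2)
    have hsum : Real.cosh (β * z.1) + Real.cosh (β * z.2) ≤ Q := hhQ
    have a1 : |z.1| ≤ 2 * Q / β := by
      rw [le_div_iff₀ hβ0]
      have h4 := abs_le_cosh (β * z.1)
      rw [abs_mul, abs_of_pos hβ0] at h4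
      linarith
    have a2 : |z.2| ≤ 2 * Q / β := by
      rw [le_div_iff₀ hβ0]
      have h4 := abs_le_cosh (β * z.2)
      rw [abs_mul, abs_of_pos hβ0] at h4
      linarith
    rw [abs_le] at a1 a2
    exact ⟨a1, a2⟩)
  rw [hψ1] at hz
  have hvz : 0 < v z := by
    have : 0 < δ * h z := mul_pos hδ0 (hhpos z)
    linarith
  obtain ⟨hc2, hLL⟩ := hpos z hvz
  have hle := LL_le hκ (hc2.sub (contDiffAt_const.mul hhs.contDiffAt)) hmax
  have e := LL_sub (κ := κ) δ hc2 (hhs.contDiffAt (x := z))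
  rw [e] at hle
  have h6 : LL κ h z ≤ q / 2 * h z := by
    rw [hh, h2_LL]
    have hc1 := Real.cosh_pos (β * z.1)
    have hc2 := Real.cosh_pos (β * z.2)
    have hsh := abs_sinh_le (β * z.1)
    rw [abs_le] at hsh
    set a := Real.cosh (β * z.1) with ha
    set b := Real.cosh (β * z.2) with hb
    set c := Real.sinh (β * z.1) with hc
    have t1 : β ^ 2 * a ≤ q / 6 * a := by
      apply mul_le_mul_of_nonneg_right _ hc1.le
      nlinarith
    have t2 : -((1 - κ) * (β * c)) ≤ q / 6 * a := by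
      have t3 : (1 - κ) * β ≤ q / 6 := by nlinarith
      have t4 : 0 ≤ (1 - κ) * β := mul_nonneg (by linarith) hβ0.le
      have t5 : -c ≤ a := by linarith
      calc -((1 - κ) * (β * c)) = ((1 - κ) * β) * (-c) := by ring
        _ ≤ ((1 - κ) * β) * a := mul_le_mul_of_nonneg_left t5 t4
        _ ≤ q / 6 * a := mul_le_mul_of_nonneg_right t3 hc1.le
    have t6 : κ * (β ^ 2 * b) ≤ q / 6 * b := by
      rw [← mul_assoc]
      apply mul_le_mul_of_nonneg_right _ hc2.le
      have : β ^ 2 ≤ q / 6 := by nlinarith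
      have : κ * β ^ 2 ≤ 1 * β ^ 2 := mul_le_mul_of_nonneg_right hκ1.le (by positivity)
      linarith
    have t7 : h2 β z = a + b := rfl
    rw [t7]
    have : 0 ≤ q * a := mul_nonneg hq.le hc1.le
    have : 0 ≤ q * b := mul_nonneg hq.le hc2.le
    linarith
  have h7 : δ * LL κ h z ≤ δ * (q / 2 * h z) := mul_le_mul_of_nonneg_left h6 hδ0.le
  have h8 : 0 < q * (v z - δ * h z) := mul_pos hq (by linarith)
  have h9 : 0 < q * (δ * h z) := mul_pos hq (mul_pos hδ0 (hhpos z))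
  linarith

end Pool.Agent.Helper90.PCap
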