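import Pool.Agent.Helper25.PCap.GoalsB
import Pool.Agent.Helper90.PCap.MP

/-! # Packet B5: first and second order conditions at a maximum point -/

set_option autoImplicit false

open MeasureTheory Set Filter Topology
open scoped ContDiff Real

noncomputable section

namespace Pool.Agent.Helper90.PCap

open Pool.Agent.Helper25.PCap

theorem sm_D1 {f : ℝ × ℝ → ℝ} {z : ℝ × ℝ} (h : ContDiffAt ℝ ∞ f z) : ContDiffAt ℝ ∞ (D1 f) z :=
  (h.fderiv_right (m := ∞) (by norm_cast)).clm_apply contDiffAt_const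

theorem sm_D2 {f : ℝ × ℝ → ℝ} {z : ℝ × ℝ} (h : ContDiffAt ℝ ∞ f z) : ContDiffAt ℝ ∞ (D2 f) z :=
  (h.fderiv_right (m := ∞) (by norm_cast)).clm_apply contDiffAt_const

theorem sm_diff {f : ℝ × ℝ → ℝ} {z : ℝ × ℝ} (h : ContDiffAt ℝ ∞ f z) : DifferentiableAt ℝ f z :=
  h.differentiableAt (by simp)

theorem slice_deriv {f : ℝ × ℝ → ℝ} {τ θ : ℝ} (h : ContDiffAt ℝ ∞ f (τ, θ)) :
    HasDerivAt (fun t => f (τ, t)) (D2 f (τ, θ)) θ := by
  have h1 : HasFDerivAt f (fderiv ℝ f (τ, θ)) (τ, θ) := (sm_diff h).hasFDerivAt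
  have h2 : HasDerivAt (fun t : ℝ => ((τ, t) : ℝ × ℝ)) (0, 1) θ :=
    (hasDerivAt_const θ τ).prodMk (hasDerivAt_id θ)
  exact HasFDerivAt.comp_hasDerivAt θ h1 h2

theorem slice_cont {f : ℝ × ℝ → ℝ} {τ θ : ℝ} (h : ContDiffAt ℝ ∞ f (τ, θ)) :
    ContinuousAt (fun t => f (τ, t)) θ := (slice_deriv h).continuousAt

/-- mixed partial derivatives commute -/
theorem mixed {f : ℝ × ℝ → ℝ} {z : ℝ × ℝ} (h : ContDiffAt ℝ ∞ f z) :
    D1 (D2 f) z = D2 (D1 f) z := by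
  have hs : IsSymmSndFDerivAt ℝ f z := h.isSymmSndFDerivAt (by
    simp only [minSmoothness_of_isRCLikeNormedField]
    norm_cast)
  have hd : DifferentiableAt ℝ (fderiv ℝ f) z :=
    (h.fderiv_right (m := ∞) (by norm_cast)).differentiableAt (by simp)
  have e : ∀ v w : ℝ × ℝ, fderiv ℝ (fun y => fderiv ℝ f y v) z w = fderiv ℝ (fderiv ℝ f) z w v := by
    intro v w
    rw [fderiv_clm_apply hd (differentiableAt_const v)]
    simp
  show fderiv ℝ (fun y => fderiv ℝ f y (0, 1)) z (1, 0) = fderiv ℝ (fun y => fderiv ℝ f y (1, 0)) z (0, 1)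
  rw [e, e]
  exact hs.eq _ _

/-- the second order equation follows from the system -/
theorem sys_LL {κ C0 : ℝ} (hκ1 : κ < 1) (hC : 0 < C0) {u om : ℝ × ℝ → ℝ}
    {N : Set (ℝ × ℝ)} (hN : IsOpen N) (h : Sys κ C0 u om N) {z : ℝ × ℝ} (hz : z ∈ N) :
    LL κ u z = 0 := by
  obtain ⟨hu, hom, e1, e2⟩ := h
  have hu' : ContDiffAt ℝ ∞ u z := hu.contDiffAt (hN.mem_nhds hz)
  have hom' : ContDiffAt ℝ ∞ om z := hom.contDiffAt (hN.mem_nhds hz)
  have hB : 0 < BB κ C0 := by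
    unfold BB
    have : 0 < 1 - κ := by linarith
    positivity
  have m := mixed hom'
  have f1 : D2 om =ᶠ[𝓝 z] fun y => BB κ C0 * Real.exp (-(1 - κ) * y.1) * D1 u y - 1 := by
    filter_upwards [hN.mem_nhds hz] with y hy using e1 y hy
  have f2 : D1 om =ᶠ[𝓝 z] fun y => -(κ * BB κ C0 * Real.exp (-(1 - κ) * y.1) * D2 u y) := by
    filter_upwards [hN.mem_nhds hz] with y hy using e2 y hy
  have g1 : D1 (D2 om) z = BB κ C0 * Real.exp (-(1 - κ) * z.1) * D1 (D1 u) z -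
      (1 - κ) * (BB κ C0 * Real.exp (-(1 - κ) * z.1) * D1 u z) := by
    have h1 : D1 (D2 om) z =
        D1 (fun y => BB κ C0 * Real.exp (-(1 - κ) * y.1) * D1 u y - 1) z :=
      congrArg (fun L : ℝ × ℝ →L[ℝ] ℝ => L (1, 0)) f1.fderiv_eq
    have hs : ContDiffAt ℝ ∞ (fun y : ℝ × ℝ => BB κ C0 * Real.exp (-(1 - κ) * y.1) * D1 u y - 1) z := by
      refine ContDiffAt.sub (ContDiffAt.mul ?_ (sm_D1 hu')) contDiffAt_const
      fun_prop
    rw [h1, D1_eq (sm_diff hs)]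
    have hd : HasDerivAt (fun t => D1 u (t, z.2)) (D1 (D1 u) z) z.1 := by
      have h1 : HasFDerivAt (D1 u) (fderiv ℝ (D1 u) z) (z.1, z.2) := (sm_diff (sm_D1 hu')).hasFDerivAt
      have h2 : HasDerivAt (fun t : ℝ => ((t, z.2) : ℝ × ℝ)) (1, 0) z.1 :=
        (hasDerivAt_id z.1).prodMk (hasDerivAt_const z.1 z.2)
      exact HasFDerivAt.comp_hasDerivAt z.1 h1 h2
    have he : HasDerivAt (fun t : ℝ => BB κ C0 * Real.exp (-(1 - κ) * t))
        (BB κ C0 * (Real.exp (-(1 - κ) * z.1) * (-(1 - κ) * 1))) z.1 :=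
      (((hasDerivAt_id z.1).const_mul (-(1 - κ))).exp).const_mul _
    have := ((he.mul hd).sub_const 1).deriv
    refine Eq.trans this ?_
    ring
  have g2 : D2 (D1 om) z = -(κ * BB κ C0 * Real.exp (-(1 - κ) * z.1) * D2 (D2 u) z) := by
    have h1 : D2 (D1 om) z =
        D2 (fun y => -(κ * BB κ C0 * Real.exp (-(1 - κ) * y.1) * D2 u y)) z :=
      congrArg (fun L : ℝ × ℝ →L[ℝ] ℝ => L (0, 1)) f2.fderiv_eq
    have hs : ContDiffAt ℝ ∞
        (fun y : ℝ × ℝ => -(κ * BB κ C0 * Real.exp (-(1 - κ) * y.1) * D2 u y)) z := by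
      refine (ContDiffAt.mul ?_ (sm_D2 hu')).neg
      fun_prop
    rw [h1, D2_eq (sm_diff hs)]
    have hd : HasDerivAt (fun t => D2 u (z.1, t)) (D2 (D2 u) z) z.2 := slice_deriv (sm_D2 hu')
    exact ((hd.const_mul (κ * BB κ C0 * Real.exp (-(1 - κ) * z.1))).neg).deriv
  rw [g1, g2] at m
  have hpos : 0 < BB κ C0 * Real.exp (-(1 - κ) * z.1) := mul_pos hB (Real.exp_pos _)
  have key : BB κ C0 * Real.exp (-(1 - κ) * z.1) * LL κ u z = 0 := by
    unfold LL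
    linear_combination m
  exact (mul_eq_zero.1 key).resolve_left hpos.ne'

theorem first_second {A B : ℝ}
    (H : ∀ e : ℝ, 0 < e → ∃ h₀ : ℝ, 0 < h₀ ∧ ∀ h : ℝ, |h| < h₀ → h * A ≤ h ^ 2 * (B + 2 * e)) :
    A = 0 ∧ 0 ≤ B := by
  obtain ⟨h₀, hh₀, H1⟩ := H 1 one_pos
  set C := |B| + 3 with hC
  have hC0 : 0 < C := by positivity
  have hBC : B + 2 * 1 ≤ C := by
    have := le_abs_self B
    linarith
  have key : ∀ x : ℝ, (∀ k : ℝ, 0 < k → k < h₀ → k * x ≤ k ^ 2 * C) → x ≤ 0 := by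
    intro x hx
    by_contra hn
    push Not at hn
    set k := min (h₀ / 2) (x / (2 * C)) with hk
    have hk0 : 0 < k := lt_min (by positivity) (by positivity)
    have hk1 : k < h₀ := lt_of_le_of_lt (min_le_left _ _) (by linarith)
    have hk2 : k ≤ x / (2 * C) := min_le_right _ _
    have h1 := hx k hk0 hk1
    have h2 : k * C ≤ x / 2 := by
      have := mul_le_mul_of_nonneg_right hk2 hC0.le
      have h3 : x / (2 * C) * C = x / 2 := by field_simp
      linarith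
    have h4 : x ≤ k * C := by
      have : k * x ≤ k * (k * C) := by linarith [h1, (by ring : k ^ 2 * C = k * (k * C))]
      exact le_of_mul_le_mul_left this hk0
    linarith
  have hA1 : A ≤ 0 := key A fun k hk hk1 => by
    have := H1 k (by rwa [abs_of_pos hk])
    have h3 : k ^ 2 * (B + 2 * 1) ≤ k ^ 2 * C := mul_le_mul_of_nonneg_left hBC (by positivity)
    linarith
  have hA2 : -A ≤ 0 := key (-A) fun k hk hk1 => by
    have := H1 (-k) (by rwa [abs_neg, abs_of_pos hk])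
    have h3 : k ^ 2 * (B + 2 * 1) ≤ k ^ 2 * C := mul_le_mul_of_nonneg_left hBC (by positivity)
    have h4 : (-k) ^ 2 = k ^ 2 := by ring
    rw [h4] at this
    linarith
  have hA : A = 0 := by linarith
  refine ⟨hA, ?_⟩
  by_contra hn
  push Not at hn
  obtain ⟨h₁, hh₁, H2⟩ := H (-B / 4) (by linarith)
  have h5 := H2 (h₁ / 2) (by rw [abs_of_pos (by positivity)]; linarith)
  rw [hA, mul_zero] at h5
  have h6 : 0 < (h₁ / 2) ^ 2 := by positivity
  have h7 : (h₁ / 2) ^ 2 * (B + 2 * (-B / 4)) = (h₁ / 2) ^ 2 * (B / 2) := by ring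
  rw [h7] at h5
  have h8 : (h₁ / 2) ^ 2 * (B / 2) < 0 := mul_neg_of_pos_of_neg h6 (by linarith)
  linarith

theorem SC_open : IsOpen SC := by
  have h : SC = {z : ℝ × ℝ | z.1 < 0} ∪ {z : ℝ × ℝ | Real.sin z.2 ≠ 0} := rfl
  rw [h]
  refine (isOpen_lt (by fun_prop) (by fun_prop)).union (isOpen_ne_fun (by fun_prop) (by fun_prop))

theorem pkB5 (h1 : GB1) (h3 : GB3) (h4 : GB4) : GB5 := by
  intro κ hκ hκ1 S D τ₀ s₀ ϑ₀ hmax hs0 hs1 hϑ0 hϑ1 huS hvol
  have hcont := (h1 κ hκ hκ1 S D).1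
  set E := ET D τ₀ s₀ with hE
  set p := D1 S.u (τ₀, ϑ₀) with hp
  obtain ⟨h4a, h4b⟩ := h4 κ hκ hκ1 S.C0 D τ₀ s₀ p hcont hs0 hs1
  have hh3 := h3 κ hκ hκ1 S τ₀ ϑ₀ hϑ0 hϑ1
  rw [huS] at hh3
  obtain ⟨-, -, -, hM⟩ := hmax
  set J1 := ∫ θ in E, D1 D.u (τ₀, θ) with hJ1
  set J2 := ∫ θ in E, D1 (D1 D.u) (τ₀, θ) with hJ2
  set I1 := ∫ θ in ϑ₀..(π / 2), D1 S.u (τ₀, θ) with hI1
  set I2 := ∫ θ in ϑ₀..(π / 2), D1 (D1 S.u) (τ₀, θ) with hI2
  rw [hvol] at h4a h4b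
  -- first and second order conditions
  have hfs : 4 * I1 - J1 = 0 ∧ 0 ≤ (J2 - 4 * I2) / 2 := by
    apply first_second
    intro e he
    obtain ⟨a, ha, -, ha2⟩ := hh3 e he
    obtain ⟨b, hb, hb2⟩ := h4b e he
    set d := min s₀ (1 - s₀) / (|p| + 1) with hd
    have hmin : 0 < min s₀ (1 - s₀) := lt_min hs0 (by linarith)
    have hd0 : 0 < d := div_pos hmin (by positivity)
    refine ⟨min (min a b) d, lt_min (lt_min ha hb) hd0, fun h hh => ?_⟩
    have hha : |h| < a := lt_of_lt_of_le hh ((min_le_left _ _).trans (min_le_left _ _))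
    have hhb : |h| < b := lt_of_lt_of_le hh ((min_le_left _ _).trans (min_le_right _ _))
    have hhd : |h| < d := lt_of_lt_of_le hh (min_le_right _ _)
    have hph : |p * h| ≤ min s₀ (1 - s₀) := by
      rw [abs_mul]
      rw [hd, lt_div_iff₀ (by positivity)] at hhd
      nlinarith [abs_nonneg h, abs_nonneg p]
    rw [abs_le] at hph
    have m1 := min_le_left s₀ (1 - s₀)
    have m2 := min_le_right s₀ (1 - s₀)
    have q1 := ha2 h hha
    have q2 := hb2 h hhb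
    have q3 := hM (τ₀ + h) (s₀ + p * h) (by linarith [hph.1]) (by linarith [hph.2])
    nlinarith
  obtain ⟨hfirst, hsecond⟩ := hfs
  -- points of E
  have hext : ∀ θ, D.ext (τ₀, θ) ≤ s₀ → τ₀ < D.T θ ∧ D.ext (τ₀, θ) = D.u (τ₀, θ) := by
    intro θ hθ
    have hlt : τ₀ < D.T θ := by
      by_contra hn
      have : D.ext (τ₀, θ) = 1 := by
        unfold TData.ext
        rw [if_neg hn]
      linarith
    refine ⟨hlt, ?_⟩
    unfold TData.ext
    rw [if_pos hlt]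
  have hslice : Continuous fun θ => D.ext (τ₀, θ) := hcont.comp (by fun_prop)
  have hEm : MeasurableSet E :=
    measurableSet_Ioc.inter (isOpen_lt hslice continuous_const).measurableSet
  set K : Set ℝ := Icc 0 (2 * π) ∩ {θ | D.ext (τ₀, θ) ≤ s₀} with hK
  have hKc : IsCompact K := isCompact_Icc.inter_right (isClosed_le hslice continuous_const)
  have hEK : E ⊆ K := fun θ hθ => ⟨⟨hθ.1.1.le, hθ.1.2⟩, hθ.2.le⟩
  have hKV : ∀ θ ∈ K, (τ₀, θ) ∈ D.V := fun θ hθ => D.VT (τ₀, θ) (hext θ hθ.2).1.le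
  have hKu : ∀ θ ∈ K, ContDiffAt ℝ ∞ D.u (τ₀, θ) := fun θ hθ =>
    D.sys.1.contDiffAt (D.Vopen.mem_nhds (hKV θ hθ))
  have hint : ∀ F : ℝ × ℝ → ℝ, (∀ θ ∈ K, ContDiffAt ℝ ∞ F (τ₀, θ)) →
      IntegrableOn (fun θ => F (τ₀, θ)) E := by
    intro F hF
    have : ContinuousOn (fun θ => F (τ₀, θ)) K := fun θ hθ =>
      (slice_cont (hF θ hθ)).continuousWithinAt
    exact (this.integrableOn_compact hKc).mono_set hEK
  have hintD1 := hint (D1 D.u) fun θ hθ => sm_D1 (hKu θ hθ)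
  have hintD11 := hint (D1 (D1 D.u)) fun θ hθ => sm_D1 (sm_D1 (hKu θ hθ))
  have hvolE : volume E ≠ ⊤ :=
    ((measure_mono hEK).trans_lt hKc.measure_lt_top).ne
  -- points of the segment
  have hseg : ∀ θ ∈ uIcc ϑ₀ (π / 2), 0 < θ ∧ θ < π := by
    intro θ hθ
    rw [uIcc_of_le hϑ1.le] at hθ
    have := Real.pi_pos
    exact ⟨lt_of_lt_of_le hϑ0 hθ.1, lt_of_le_of_lt hθ.2 (by linarith)⟩
  have hQo : IsOpen {z : ℝ × ℝ | 0 < z.2 ∧ z.2 < π} :=
    (isOpen_lt continuous_const continuous_snd).inter (isOpen_lt continuous_snd continuous_const)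
  have hSu : ∀ θ ∈ uIcc ϑ₀ (π / 2), ContDiffAt ℝ ∞ S.u (τ₀, θ) := fun θ hθ =>
    S.sysQ.1.contDiffAt (hQo.mem_nhds (hseg θ hθ))
  have hSom : ∀ θ ∈ uIcc ϑ₀ (π / 2), ContDiffAt ℝ ∞ S.om (τ₀, θ) := fun θ hθ =>
    S.sysQ.2.1.contDiffAt (hQo.mem_nhds (hseg θ hθ))
  have hii : ∀ F : ℝ × ℝ → ℝ, (∀ θ ∈ uIcc ϑ₀ (π / 2), ContDiffAt ℝ ∞ F (τ₀, θ)) →
      IntervalIntegrable (fun θ => F (τ₀, θ)) volume ϑ₀ (π / 2) := by
    intro F hF
    have : ContinuousOn (fun θ => F (τ₀, θ)) (uIcc ϑ₀ (π / 2)) := fun θ hθ =>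
      (slice_cont (hF θ hθ)).continuousWithinAt
    exact this.intervalIntegrable
  refine ⟨?_, ?_, ?_⟩
  · -- stream function
    have e1 : ∫ θ in E, D2 D.om (τ₀, θ) =
        BB κ S.C0 * Real.exp (-(1 - κ) * τ₀) * J1 - (2 * π - 4 * ϑ₀) := by
      have : ∫ θ in E, D2 D.om (τ₀, θ) =
          ∫ θ in E, (BB κ S.C0 * Real.exp (-(1 - κ) * τ₀) * D1 D.u (τ₀, θ) - 1) :=
        setIntegral_congr_fun hEm fun θ hθ => D.sys.2.2.1 (τ₀, θ) (hKV θ (hEK hθ))
      rw [this, integral_sub (hintD1.const_mul _) (integrableOn_const hvolE), integral_const_mul,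
        setIntegral_const, smul_eq_mul, mul_one]
      rw [show (volume.real E) = (volume E).toReal from rfl, hvol]
    have e2 : ∫ θ in ϑ₀..(π / 2), D2 S.om (τ₀, θ) =
        BB κ S.C0 * Real.exp (-(1 - κ) * τ₀) * I1 - (π / 2 - ϑ₀) := by
      have : ∫ θ in ϑ₀..(π / 2), D2 S.om (τ₀, θ) =
          ∫ θ in ϑ₀..(π / 2), (BB κ S.C0 * Real.exp (-(1 - κ) * τ₀) * D1 S.u (τ₀, θ) - 1) :=
        intervalIntegral.integral_congr fun θ hθ => S.sysQ.2.2.1 (τ₀, θ) (hseg θ hθ)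
      rw [this, intervalIntegral.integral_sub ((hii _ fun θ hθ => sm_D1 (hSu θ hθ)).const_mul _)
        intervalIntegrable_const, intervalIntegral.integral_const_mul,
        intervalIntegral.integral_const, smul_eq_mul, mul_one]
    have e3 : ∫ θ in ϑ₀..(π / 2), D2 S.om (τ₀, θ) = S.om (τ₀, π / 2) - S.om (τ₀, ϑ₀) :=
      intervalIntegral.integral_eq_sub_of_hasDerivAt (fun θ hθ => slice_deriv (hSom θ hθ))
        (hii _ fun θ hθ => sm_D2 (hSom θ hθ))
    rw [S.om_half] at e3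
    rw [e1]
    have hJ : J1 = 4 * I1 := by linarith
    rw [hJ]
    linarith
  · -- second derivative
    have e1 : κ * ∫ θ in E, D2 (D2 D.u) (τ₀, θ) = (1 - κ) * J1 - J2 := by
      rw [← integral_const_mul, hJ1, hJ2, ← integral_const_mul,
        ← integral_sub (hintD1.const_mul _) hintD11]
      refine setIntegral_congr_fun hEm fun θ hθ => ?_
      have := sys_LL hκ1 S.C0pos D.Vopen D.sys (hKV θ (hEK hθ))
      unfold LL at this
      linarith
    have e2 : κ * ∫ θ in ϑ₀..(π / 2), D2 (D2 S.u) (τ₀, θ) = (1 - κ) * I1 - I2 := by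
      rw [← intervalIntegral.integral_const_mul, hI1, hI2, ← intervalIntegral.integral_const_mul,
        ← intervalIntegral.integral_sub ((hii _ fun θ hθ => sm_D1 (hSu θ hθ)).const_mul _)
          (hii _ fun θ hθ => sm_D1 (sm_D1 (hSu θ hθ)))]
      refine intervalIntegral.integral_congr fun θ hθ => ?_
      have := sys_LL (z := (τ₀, θ)) hκ1 S.C0pos hQo S.sysQ (hseg θ hθ)
      unfold LL at this
      linarith
    have e3 : ∫ θ in ϑ₀..(π / 2), D2 (D2 S.u) (τ₀, θ) = D2 S.u (τ₀, π / 2) - D2 S.u (τ₀, ϑ₀) :=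
      intervalIntegral.integral_eq_sub_of_hasDerivAt (fun θ hθ => slice_deriv (sm_D2 (hSu θ hθ)))
        (hii _ fun θ hθ => sm_D2 (sm_D2 (hSu θ hθ)))
    have e4 : D2 S.u (τ₀, π / 2) = 0 := by
      have hd := slice_deriv (hSu (π / 2) right_mem_uIcc)
      have hsym : ∀ θ, S.u (τ₀, π - θ) = S.u (τ₀, θ) := by
        intro θ
        rw [show π - θ = -θ + π by ring, S.per, S.even]
      have hd2 : HasDerivAt (fun t => S.u (τ₀, π - t)) (-D2 S.u (τ₀, π / 2)) (π / 2) := by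
        have hd' : HasDerivAt (fun t => S.u (τ₀, t)) (D2 S.u (τ₀, π / 2)) (π - π / 2) := by
          rw [show π - π / 2 = π / 2 by ring]
          exact hd
        have := HasDerivAt.comp (π / 2) hd' ((hasDerivAt_id (π / 2)).const_sub π)
        rw [mul_neg_one] at this
        exact this
      rw [show (fun t => S.u (τ₀, π - t)) = fun t => S.u (τ₀, t) from funext hsym] at hd2
      have := hd.unique hd2
      linarith
    rw [e4] at e3
    rw [e3] at e2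
    have hJ : J1 = 4 * I1 := by linarith
    have h5 : κ * ∫ θ in E, D2 (D2 D.u) (τ₀, θ) ≤ κ * (4 * (-D2 S.u (τ₀, ϑ₀))) := by
      rw [e1, hJ]
      have : κ * (4 * (-D2 S.u (τ₀, ϑ₀))) = 4 * (κ * (0 - D2 S.u (τ₀, ϑ₀))) := by ring
      rw [this, e2]
      linarith
    exact le_of_mul_le_mul_left h5 hκ
  · intro e he
    obtain ⟨a, ha, ha1, -⟩ := hh3 e he
    refine ⟨min a s₀, lt_min ha hs0, fun k hk hk1 => ?_⟩
    have hka : k < a := lt_of_lt_of_le hk1 (min_le_left _ _)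
    have hks : k < s₀ := lt_of_lt_of_le hk1 (min_le_right _ _)
    have q1 := ha1 k hk hka
    have q2 := h4a k hk.le
    have q3 := hM τ₀ (s₀ - k) (by linarith) (by linarith)
    linarith

end Pool.Agent.Helper90.PCap
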