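import Pool.Agent.Helper25.PCap.GoalsTools

/-! # Packet LIM: bounded pointwise limits of solutions are smooth solutions -/

set_option autoImplicit false

open MeasureTheory Set Filter Topology
open scoped ContDiff Real Convolution

noncomputable section

namespace Pool.Agent.Helper90.PCap

open Pool.Agent.Helper25.PCap

/-- convolution -/
def cv (f g : ℝ × ℝ → ℝ) : ℝ × ℝ → ℝ := f ⋆[ContinuousLinearMap.mul ℝ ℝ, volume] g

theorem cv_apply (f g : ℝ × ℝ → ℝ) (x : ℝ × ℝ) : cv f g x = ∫ t, f t * g (x - t) := rfl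

/-- smooth, compactly supported -/
structure Sm (g : ℝ × ℝ → ℝ) : Prop where
  sm : ContDiff ℝ ∞ g
  cs : HasCompactSupport g

theorem Sm.D1 {g : ℝ × ℝ → ℝ} (h : Sm g) : Sm (D1 g) :=
  ⟨(h.sm.fderiv_right (m := ∞) (by norm_cast)).clm_apply contDiff_const,
    h.cs.fderiv_apply (𝕜 := ℝ) _⟩

theorem Sm.D2 {g : ℝ × ℝ → ℝ} (h : Sm g) : Sm (D2 g) :=
  ⟨(h.sm.fderiv_right (m := ∞) (by norm_cast)).clm_apply contDiff_const,
    h.cs.fderiv_apply (𝕜 := ℝ) _⟩

theorem Sm.int {g : ℝ × ℝ → ℝ} (h : Sm g) : Integrable g :=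
  h.sm.continuous.integrable_of_hasCompactSupport h.cs

theorem Sm.LL {g : ℝ × ℝ → ℝ} (κ : ℝ) (h : Sm g) : Sm (LL κ g) := by
  refine ⟨(h.D1.D1.sm.sub (contDiff_const.mul h.D1.sm)).add (contDiff_const.mul h.D2.D2.sm), ?_⟩
  refine (h.D1.D1.cs.sub ?_).add ?_
  · exact h.D1.cs.mul_left (f := fun _ => 1 - κ)
  · exact h.D2.D2.cs.mul_left (f := fun _ => κ)

theorem cv_int {f g : ℝ × ℝ → ℝ} (hf : LocallyIntegrable f volume) (h : Sm g) (x : ℝ × ℝ) :
    Integrable (fun t => f t * g (x - t)) :=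
  h.cs.convolutionExists_right (ContinuousLinearMap.mul ℝ ℝ) hf h.sm.continuous x

theorem cv_D1 {f g : ℝ × ℝ → ℝ} (hf : LocallyIntegrable f volume) (h : Sm g) :
    D1 (cv f g) = cv f (D1 g) := by
  funext x
  have h1 := (h.cs.hasFDerivAt_convolution_right (ContinuousLinearMap.mul ℝ ℝ) hf
    (h.sm.of_le (by norm_cast)) x).fderiv
  show fderiv ℝ (f ⋆[ContinuousLinearMap.mul ℝ ℝ, volume] g) x (1, 0) = _
  rw [h1, convolution_precompR_apply _ hf (h.cs.fderiv (𝕜 := ℝ)) (h.sm.continuous_fderiv (by simp))]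
  rfl

theorem cv_D2 {f g : ℝ × ℝ → ℝ} (hf : LocallyIntegrable f volume) (h : Sm g) :
    D2 (cv f g) = cv f (D2 g) := by
  funext x
  have h1 := (h.cs.hasFDerivAt_convolution_right (ContinuousLinearMap.mul ℝ ℝ) hf
    (h.sm.of_le (by norm_cast)) x).fderiv
  show fderiv ℝ (f ⋆[ContinuousLinearMap.mul ℝ ℝ, volume] g) x (0, 1) = _
  rw [h1, convolution_precompR_apply _ hf (h.cs.fderiv (𝕜 := ℝ)) (h.sm.continuous_fderiv (by simp))]
  rfl

theorem cv_LL {κ : ℝ} {f g : ℝ × ℝ → ℝ} (hf : LocallyIntegrable f volume) (h : Sm g)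
    (x : ℝ × ℝ) : LL κ (cv f g) x = cv f (LL κ g) x := by
  have e : ∀ t, f t * LL κ g (x - t) = f t * D1 (D1 g) (x - t) -
      (1 - κ) * (f t * D1 g (x - t)) + κ * (f t * D2 (D2 g) (x - t)) := by
    intro t
    simp only [LL]
    ring
  rw [cv_apply, integral_congr_ae (ae_of_all _ e), integral_add, integral_sub,
    integral_const_mul, integral_const_mul]
  · simp only [LL]
    rw [cv_D1 hf h, cv_D1 hf h.D1, cv_D2 hf h, cv_D2 hf h.D2]
    rfl
  · exact cv_int hf h.D1.D1 x
  · exact (cv_int hf h.D1 x).const_mul _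
  · exact (cv_int hf h.D1.D1 x).sub ((cv_int hf h.D1 x).const_mul _)
  · exact (cv_int hf h.D2.D2 x).const_mul _

theorem cv_smooth {f g : ℝ × ℝ → ℝ} (hf : LocallyIntegrable f volume) (h : Sm g) :
    ContDiff ℝ ∞ (cv f g) := by
  have := h.cs.contDiff_convolution_right (n := ⊤) (ContinuousLinearMap.mul ℝ ℝ) hf h.sm
  exact this

theorem LL_congr {κ : ℝ} {f g : ℝ × ℝ → ℝ} {x : ℝ × ℝ} (h : f =ᶠ[𝓝 x] g) :
    LL κ f x = LL κ g x := by
  have h1 : D1 f =ᶠ[𝓝 x] D1 g := by
    filter_upwards [h.fderiv (𝕜 := ℝ)] with y hy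
    simp only [D1, hy]
  have h2 : D2 f =ᶠ[𝓝 x] D2 g := by
    filter_upwards [h.fderiv (𝕜 := ℝ)] with y hy
    simp only [D2, hy]
  have h3 : D1 (D1 f) x = D1 (D1 g) x := by
    simp only [D1]
    exact congrArg (fun L : ℝ × ℝ →L[ℝ] ℝ => L (1, 0)) h1.fderiv_eq
  have h4 : D2 (D2 f) x = D2 (D2 g) x := by
    simp only [D2]
    exact congrArg (fun L : ℝ × ℝ →L[ℝ] ℝ => L (0, 1)) h2.fderiv_eq
  simp only [LL]
  rw [h3, h4, h1.eq_of_nhds]

theorem int_of_bdd {B : Set (ℝ × ℝ)} (hB : IsCompact B) {w : ℝ × ℝ → ℝ}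
    (hm : AEStronglyMeasurable w volume) (A : ℝ) (hA : ∀ z, |w z| ≤ A) (h0 : ∀ z ∉ B, w z = 0) :
    Integrable w := by
  have h1 : IntegrableOn w B :=
    Measure.integrableOn_of_bounded hB.measure_lt_top.ne hm (ae_of_all _ hA)
  refine (integrableOn_iff_integrable_of_support_subset ?_).1 h1
  intro z hz
  by_contra hn
  exact hz (h0 z hn)

theorem cv_lim {g : ℝ × ℝ → ℝ} (h : Sm g) (w : ℕ → ℝ × ℝ → ℝ) (v : ℝ × ℝ → ℝ) (A : ℝ)
    (hm : ∀ k, AEStronglyMeasurable (w k) volume) (hA : ∀ k z, |w k z| ≤ A)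
    (hl : ∀ z, Tendsto (fun k => w k z) atTop (𝓝 (v z))) (x : ℝ × ℝ) :
    Tendsto (fun k => cv (w k) g x) atTop (𝓝 (cv v g x)) := by
  simp only [cv_apply]
  refine tendsto_integral_of_dominated_convergence (fun t => A * |g (x - t)|) ?_ ?_ ?_ ?_
  · intro k
    exact (hm k).mul (h.sm.continuous.comp (continuous_const.sub continuous_id)).aestronglyMeasurable
  · exact ((h.int.comp_sub_left x).abs).const_mul A
  · intro k
    refine ae_of_all _ fun t => ?_
    rw [norm_mul, Real.norm_eq_abs, Real.norm_eq_abs]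
    exact mul_le_mul_of_nonneg_right (hA k t) (abs_nonneg _)
  · exact ae_of_all _ fun t => (hl t).mul_const _

theorem pkLim (h : GRepr) : GLim := by
  intro κ hκ hκ1 O u v A hO hu hLL hA hlim
  have key : ∀ z₀ ∈ O, ContDiffAt ℝ ∞ v z₀ ∧ LL κ v z₀ = 0 := by
    intro z₀ hz₀
    obtain ⟨r, hr, hrO⟩ := Metric.nhds_basis_closedBall.mem_iff.1 (hO.mem_nhds hz₀)
    set δ := r / 2 with hδ
    have hδ0 : 0 < δ := by positivity
    obtain ⟨η, hη, hηc, hη0, hrep⟩ := h κ hκ hκ1 δ hδ0
    set B := Metric.closedBall z₀ r with hB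
    have hBc : IsCompact B := isCompact_closedBall _ _
    have hBm : MeasurableSet B := hBc.isClosed.measurableSet
    set g : ℝ × ℝ → ℝ := fun z => η (-z) with hg
    have hSm : Sm g := by
      refine ⟨hη.comp contDiff_neg, ?_⟩
      exact hηc.comp_homeomorph (Homeomorph.neg (ℝ × ℝ))
    set w : ℕ → ℝ × ℝ → ℝ := fun k => B.indicator (u k) with hw
    set vB : ℝ × ℝ → ℝ := B.indicator v with hvB
    have hwm : ∀ k, AEStronglyMeasurable (w k) volume := by
      intro k
      refine (aestronglyMeasurable_indicator_iff hBm).2 ?_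
      exact (((hu k).continuousOn).mono hrO).aestronglyMeasurable hBm
    have hA0 : 0 ≤ A := (abs_nonneg _).trans (hA 0 z₀ hz₀)
    have hwA : ∀ k z, |w k z| ≤ A := by
      intro k z
      by_cases hz : z ∈ B
      · simp only [hw, indicator_of_mem hz]
        exact hA k z (hrO hz)
      · simp only [hw, indicator_of_notMem hz, abs_zero]
        exact hA0
    have hwl : ∀ z, Tendsto (fun k => w k z) atTop (𝓝 (vB z)) := by
      intro z
      by_cases hz : z ∈ B
      · simp only [hw, hvB, indicator_of_mem hz]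
        exact hlim z (hrO hz)
      · simp only [hw, hvB, indicator_of_notMem hz]
        exact tendsto_const_nhds
    have hvm : AEStronglyMeasurable vB volume :=
      aestronglyMeasurable_of_tendsto_ae atTop hwm (ae_of_all _ hwl)
    have hvA : ∀ z, |vB z| ≤ A := by
      intro z
      exact le_of_tendsto (hwl z).abs (Eventually.of_forall fun k => hwA k z)
    have hwi : ∀ k, LocallyIntegrable (w k) volume := fun k =>
      (int_of_bdd hBc (hwm k) A (hwA k) fun z hz => indicator_of_notMem hz _).locallyIntegrable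
    have hvi : LocallyIntegrable vB volume :=
      (int_of_bdd hBc hvm A hvA fun z hz => indicator_of_notMem hz _).locallyIntegrable
    have hur : ∀ k, ∀ x ∈ Metric.ball z₀ δ, u k x = cv (w k) g x := by
      intro k x hx
      have hxB : Metric.closedBall x δ ⊆ B := by
        intro y hy
        rw [Metric.mem_closedBall] at hy
        rw [Metric.mem_ball] at hx
        rw [hB, Metric.mem_closedBall]
        have := dist_triangle y x z₀
        linarith
      rw [hrep O (u k) hO (hu k) (hLL k) x (hxB.trans hrO), cv_apply,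
        ← integral_sub_right_eq_self (fun z => u k (x + z) * η z) x]
      refine integral_congr_ae (ae_of_all _ fun y => ?_)
      simp only [hg, neg_sub, add_sub_cancel]
      by_cases hy : y ∈ B
      · simp only [hw, indicator_of_mem hy]
      · have : η (y - x) = 0 := by
          apply hη0
          by_contra hn
          push Not at hn
          exact hy (hxB (by rw [Metric.mem_closedBall, dist_eq_norm]; exact hn.le))
        rw [this, mul_zero, mul_zero]
    have hvr : ∀ x ∈ Metric.ball z₀ δ, v x = cv vB g x := by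
      intro x hx
      have hxO : x ∈ O := by
        apply hrO
        rw [hB, Metric.mem_closedBall]
        rw [Metric.mem_ball] at hx
        linarith
      have h1 := hlim x hxO
      have h2 := cv_lim hSm w vB A hwm hwA hwl x
      have h3 : (fun k => u k x) = fun k => cv (w k) g x := by
        funext k
        exact hur k x hx
      rw [h3] at h1
      exact tendsto_nhds_unique h1 h2
    have hball : Metric.ball z₀ δ ∈ 𝓝 z₀ := Metric.ball_mem_nhds _ hδ0
    have hve : v =ᶠ[𝓝 z₀] cv vB g := by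
      filter_upwards [hball] with x hx using hvr x hx
    refine ⟨((cv_smooth hvi hSm).contDiffAt).congr_of_eventuallyEq hve, ?_⟩
    rw [LL_congr hve, cv_LL hvi hSm]
    have h2 := cv_lim (hSm.LL κ) w vB A hwm hwA hwl z₀
    have h3 : (fun k => cv (w k) (LL κ g) z₀) = fun _ => (0 : ℝ) := by
      funext k
      rw [← cv_LL (hwi k) hSm, ← hLL k z₀ hz₀]
      refine LL_congr ?_
      filter_upwards [hball] with x hx using (hur k x hx).symm
    rw [h3] at h2
    exact tendsto_nhds_unique h2 tendsto_const_nhds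
  exact ⟨fun z hz => (key z hz).1.contDiffWithinAt, fun z hz => (key z hz).2⟩

theorem pkReg (h : GRepr) : GReg := by
  intro κ hκ hκ1 O u hO hu hLL z₀ hz₀
  obtain ⟨r, hr, hrO⟩ := Metric.nhds_basis_closedBall.mem_iff.1 (hO.mem_nhds hz₀)
  have hc : ContinuousOn u (Metric.closedBall z₀ r) := hu.continuousOn.mono hrO
  obtain ⟨A, hA⟩ := (isCompact_closedBall z₀ r).exists_bound_of_continuousOn hc
  have hb : Metric.ball z₀ r ⊆ Metric.closedBall z₀ r := Metric.ball_subset_closedBall
  have h1 := pkLim h κ hκ hκ1 (Metric.ball z₀ r) (fun _ => u) u A Metric.isOpen_ball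
    (fun _ => hu.mono (hb.trans hrO)) (fun _ z hz => hLL z (hrO (hb hz)))
    (fun _ z hz => hA z (hb hz)) (fun _ _ => tendsto_const_nhds)
  exact (h1.1.contDiffAt (Metric.ball_mem_nhds _ hr)).contDiffWithinAt

end Pool.Agent.Helper90.PCap
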